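import Mathlib

/-! Mean value sums for the near pairs of project T4 (MP_12a1af). -/

namespace Pool.Agent.Helper72.T4

open Finset

/-- Telescoping step. -/
theorem inv_sqrt_le (x P : ℝ) (hP : 0 < P) (hx : P ≤ x) :
    1 / Real.sqrt x ≤ 2 / P * (Real.sqrt x - Real.sqrt (x - P)) := by
  have hx0 : 0 < x := lt_of_lt_of_le hP hx
  have h1 : 0 < Real.sqrt x := Real.sqrt_pos.mpr hx0
  have h2 : 0 ≤ Real.sqrt (x - P) := Real.sqrt_nonneg _
  have h3 : Real.sqrt (x - P) ≤ Real.sqrt x := Real.sqrt_le_sqrt (by linarith)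
  have h4 : (Real.sqrt x - Real.sqrt (x - P)) * (Real.sqrt x + Real.sqrt (x - P)) = P := by
    have e1 : Real.sqrt x * Real.sqrt x = x := Real.mul_self_sqrt hx0.le
    have e2 : Real.sqrt (x - P) * Real.sqrt (x - P) = x - P :=
      Real.mul_self_sqrt (by linarith)
    nlinarith
  have h5 : P ≤ (Real.sqrt x - Real.sqrt (x - P)) * (2 * Real.sqrt x) := by
    have h6 : (Real.sqrt x - Real.sqrt (x - P)) * (Real.sqrt x + Real.sqrt (x - P)) ≤
        (Real.sqrt x - Real.sqrt (x - P)) * (2 * Real.sqrt x) :=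
      mul_le_mul_of_nonneg_left (by linarith) (by linarith)
    linarith
  rw [div_mul_eq_mul_div, div_le_div_iff₀ h1 hP]
  nlinarith

/-- Sum of `1 / sqrt` over an arithmetic progression. -/
theorem sum_ap (a P : ℝ) (ha : 0 < a) (hP : 0 < P) (n : ℕ) :
    ∑ j ∈ range (n + 1), 1 / Real.sqrt (a + P * j) ≤
      1 / Real.sqrt a + 2 / P * (Real.sqrt (a + P * n) - Real.sqrt a) := by
  induction n with
  | zero => simp
  | succ n ih =>
    rw [sum_range_succ]
    have h := inv_sqrt_le (a + P * ((n + 1 : ℕ) : ℝ)) P hP (by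
      push_cast
      have : (0 : ℝ) ≤ P * n := by positivity
      nlinarith)
    have e : a + P * ((n + 1 : ℕ) : ℝ) - P = a + P * n := by push_cast; ring
    rw [e] at h
    have hring : 2 / P * (Real.sqrt (a + P * ((n + 1 : ℕ) : ℝ)) - Real.sqrt a) =
        2 / P * (Real.sqrt (a + P * ((n + 1 : ℕ) : ℝ)) - Real.sqrt (a + P * n)) +
        2 / P * (Real.sqrt (a + P * n) - Real.sqrt a) := by ring
    rw [hring]
    linarith

/-- Sum of `1 / sqrt` over a finite subset of a residue class inside `[a, b]`. -/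
theorem sum_class (T : Finset ℕ) (a b P : ℕ) (ha : 0 < a) (hP : 0 < P)
    (hT : ∀ t ∈ T, a ≤ t ∧ t ≤ b) (hc : ∀ t ∈ T, ∀ t' ∈ T, t ≡ t' [MOD P]) :
    ∑ t ∈ T, 1 / Real.sqrt t ≤ 1 / Real.sqrt a + 2 / P * Real.sqrt b := by
  have haR : (0 : ℝ) < a := by exact_mod_cast ha
  have hPR : (0 : ℝ) < P := by exact_mod_cast hP
  rcases T.eq_empty_or_nonempty with rfl | hne
  · simp only [sum_empty]; positivity
  set t0 := T.min' hne with ht0
  have ht0m : t0 ∈ T := T.min'_mem hne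
  have h0 := hT t0 ht0m
  set n := (b - t0) / P with hn
  have hsub : T ⊆ (range (n + 1)).image (fun j => t0 + P * j) := by
    intro t ht
    have hle : t0 ≤ t := T.min'_le t ht
    have hmod : P ∣ t - t0 := (Nat.modEq_iff_dvd' hle).mp (hc t0 ht0m t ht)
    obtain ⟨j, hj⟩ := hmod
    rw [mem_image]
    refine ⟨j, ?_, by omega⟩
    rw [mem_range, hn, Nat.lt_succ_iff, Nat.le_div_iff_mul_le hP]
    have := (hT t ht).2
    rw [Nat.mul_comm]
    omega
  have hinj : Function.Injective (fun j : ℕ => t0 + P * j) := by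
    intro i j hij
    simp only at hij
    exact Nat.eq_of_mul_eq_mul_left hP (by omega)
  have ht0pos : 0 < t0 := lt_of_lt_of_le ha h0.1
  have ht0R : (0 : ℝ) < t0 := by exact_mod_cast ht0pos
  calc ∑ t ∈ T, 1 / Real.sqrt t
      ≤ ∑ t ∈ (range (n + 1)).image (fun j => t0 + P * j), 1 / Real.sqrt (t : ℝ) :=
        sum_le_sum_of_subset_of_nonneg hsub (fun _ _ _ => by positivity)
    _ = ∑ j ∈ range (n + 1), 1 / Real.sqrt ((t0 + P * j : ℕ) : ℝ) :=
        sum_image (fun _ _ _ _ h => hinj h)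
    _ = ∑ j ∈ range (n + 1), 1 / Real.sqrt ((t0 : ℝ) + (P : ℝ) * j) := by
        apply sum_congr rfl; intros; push_cast; rfl
    _ ≤ 1 / Real.sqrt t0 + 2 / P * (Real.sqrt (t0 + P * n) - Real.sqrt t0) :=
        sum_ap _ _ ht0R hPR n
    _ ≤ 1 / Real.sqrt a + 2 / P * Real.sqrt b := by
        apply add_le_add
        · apply one_div_le_one_div_of_le (Real.sqrt_pos.mpr haR)
          exact Real.sqrt_le_sqrt (by exact_mod_cast h0.1)
        · apply mul_le_mul_of_nonneg_left _ (by positivity)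
          have h1 : Real.sqrt ((t0 : ℝ) + P * n) ≤ Real.sqrt b := by
            apply Real.sqrt_le_sqrt
            have : t0 + P * n ≤ b := by
              have h9 : P * n ≤ b - t0 := Nat.mul_div_le (b - t0) P
              omega
            exact_mod_cast this
          have h2 := Real.sqrt_nonneg (t0 : ℝ)
          linarith

/-- Sum of `1 / sqrt` over an initial segment. -/
theorem sum_init (M : ℕ) : ∑ v ∈ Icc 1 M, 1 / Real.sqrt (v : ℝ) ≤ 2 * Real.sqrt M := by
  induction M with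
  | zero => simp
  | succ n ih =>
    rw [sum_Icc_succ_top (by omega)]
    have h := inv_sqrt_le ((n + 1 : ℕ) : ℝ) 1 one_pos (by push_cast; linarith [Nat.cast_nonneg (α := ℝ) n])
    have e : ((n + 1 : ℕ) : ℝ) - 1 = n := by push_cast; ring
    rw [e] at h
    linarith

/-- (M1): the mean number of representations `v + v' = M` for densities at most `v ^ (-1/2)`. -/
theorem mean_sum (w w' : ℕ → ℝ) (M : ℕ)
    (hw0' : ∀ v, 0 ≤ w' v)
    (hw : ∀ v, 1 ≤ v → w v ≤ 1 / Real.sqrt v) (hw' : ∀ v, 1 ≤ v → w' v ≤ 1 / Real.sqrt v)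
    (hz : w 0 = 0) (hz' : w' 0 = 0) :
    ∑ q ∈ antidiagonal M, w q.1 * w' q.2 ≤ 4 := by
  rcases Nat.eq_zero_or_pos M with rfl | hM
  · simp [hz]
  have hMR : (0 : ℝ) < M := by exact_mod_cast hM
  have hsM : 0 < Real.sqrt M := Real.sqrt_pos.mpr hMR
  set g : ℕ → ℝ := fun v => if v = 0 then 0 else 1 / Real.sqrt v with hg
  have hg0 : ∀ v, 0 ≤ g v := by
    intro v; simp only [hg]; split_ifs
    · exact le_rfl
    · positivity
  have key : ∀ q ∈ antidiagonal M, w q.1 * w' q.2 ≤ (g q.1 + g q.2) / Real.sqrt M := by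
    rintro ⟨v, v'⟩ hq
    rw [Finset.HasAntidiagonal.mem_antidiagonal] at hq
    simp only at hq ⊢
    rcases Nat.eq_zero_or_pos v with rfl | hv
    · rw [hz, zero_mul]; exact div_nonneg (add_nonneg (hg0 _) (hg0 _)) hsM.le
    rcases Nat.eq_zero_or_pos v' with rfl | hv'
    · rw [hz', mul_zero]; exact div_nonneg (add_nonneg (hg0 _) (hg0 _)) hsM.le
    have hvR : (0 : ℝ) < v := by exact_mod_cast hv
    have hvR' : (0 : ℝ) < v' := by exact_mod_cast hv'
    have s1 : 0 < Real.sqrt v := Real.sqrt_pos.mpr hvR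
    have s2 : 0 < Real.sqrt v' := Real.sqrt_pos.mpr hvR'
    have h1 : w v * w' v' ≤ 1 / Real.sqrt v * (1 / Real.sqrt v') :=
      mul_le_mul (hw v hv) (hw' v' hv') (hw0' v') (by positivity)
    refine h1.trans ?_
    simp only [hg, if_neg (Nat.pos_iff_ne_zero.mp hv), if_neg (Nat.pos_iff_ne_zero.mp hv')]
    have hsq : Real.sqrt M ≤ Real.sqrt v + Real.sqrt v' := by
      have e : (M : ℝ) = v + v' := by exact_mod_cast hq.symm
      rw [e]
      rw [Real.sqrt_le_iff]
      refine ⟨by positivity, ?_⟩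
      have t1 := Real.sq_sqrt hvR.le
      have t2 := Real.sq_sqrt hvR'.le
      nlinarith [mul_pos s1 s2]
    have e2 : 1 / Real.sqrt v * (1 / Real.sqrt v') =
        (1 / Real.sqrt v + 1 / Real.sqrt v') / (Real.sqrt v + Real.sqrt v') := by
      field_simp
      ring
    rw [e2]
    apply div_le_div_of_nonneg_left (by positivity) hsM hsq
  refine (sum_le_sum key).trans ?_
  rw [← sum_div, sum_add_distrib]
  have hsym : ∑ q ∈ antidiagonal M, g q.2 = ∑ q ∈ antidiagonal M, g q.1 := by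
    have := Finset.Nat.sum_antidiagonal_swap (n := M) (f := fun q : ℕ × ℕ => g q.1)
    simpa using this
  have hsum : ∑ q ∈ antidiagonal M, g q.1 ≤ 2 * Real.sqrt M := by
    rw [Finset.Nat.sum_antidiagonal_eq_sum_range_succ_mk]
    simp only
    have h2 : ∑ v ∈ range (M + 1), g v = ∑ v ∈ Icc 1 M, 1 / Real.sqrt (v : ℝ) := by
      have hs : Icc 1 M = (range (M + 1)).erase 0 := by
        ext t; simp only [mem_Icc, mem_erase, mem_range]; omega
      rw [hs, ← Finset.add_sum_erase (range (M + 1)) g (mem_range.mpr (Nat.succ_pos M))]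
      have : g 0 = 0 := by simp [hg]
      rw [this, zero_add]
      apply sum_congr rfl
      intro v hv
      have : v ≠ 0 := (mem_erase.mp hv).1
      simp [hg, this]
    rw [h2]
    exact sum_init M
  rw [hsym, div_le_iff₀ hsM]
  linarith

/-- (M2): mean number of solutions of `v' + P v = R i` with `v ≥ c` and `a ≤ v' ≤ b`. -/
theorem mean_twisted {ι : Type*} (I : Finset ι) (R : ι → ℕ) (w w' : ℕ → ℝ) (a b c P : ℕ)
    (ha : 0 < a) (hP : 0 < P) (hcpos : 0 < c) (E : ι → Finset (ℕ × ℕ))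
    (hE : ∀ i ∈ I, ∀ q ∈ E i, c ≤ q.1 ∧ a ≤ q.2 ∧ q.2 ≤ b ∧ q.2 + P * q.1 = R i)
    (hw0' : ∀ v, 0 ≤ w' v)
    (hw : ∀ v, 1 ≤ v → w v ≤ 1 / Real.sqrt v) (hw' : ∀ v, 1 ≤ v → w' v ≤ 1 / Real.sqrt v) :
    ∑ i ∈ I, ∑ q ∈ E i, w q.1 * w' q.2 ≤
      I.card * (1 / Real.sqrt c * (1 / Real.sqrt a + 2 / P * Real.sqrt b)) := by
  have hcR : (0 : ℝ) < c := by exact_mod_cast hcpos
  rw [← nsmul_eq_mul]
  apply sum_le_card_nsmul
  intro i hi
  have h1 : ∑ q ∈ E i, w q.1 * w' q.2 ≤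
      1 / Real.sqrt c * ∑ q ∈ E i, 1 / Real.sqrt (q.2 : ℝ) := by
    rw [mul_sum]
    apply sum_le_sum
    intro q hq
    obtain ⟨hc1, ha1, _, _⟩ := hE i hi q hq
    have hq1 : 1 ≤ q.1 := le_trans hcpos hc1
    have hq2 : 1 ≤ q.2 := le_trans ha ha1
    have e1 : w q.1 ≤ 1 / Real.sqrt c := by
      refine (hw q.1 hq1).trans ?_
      apply one_div_le_one_div_of_le (Real.sqrt_pos.mpr hcR)
      exact Real.sqrt_le_sqrt (by exact_mod_cast hc1)
    exact mul_le_mul e1 (hw' q.2 hq2) (hw0' _) (by positivity)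
  refine h1.trans ?_
  apply mul_le_mul_of_nonneg_left _ (by positivity)
  have hinj : Set.InjOn Prod.snd (E i : Set (ℕ × ℕ)) := by
    rintro ⟨v, v'⟩ h ⟨u, u'⟩ hu heq
    simp only at heq
    subst heq
    obtain ⟨_, _, _, e⟩ := hE i hi _ h
    obtain ⟨_, _, _, e'⟩ := hE i hi _ hu
    simp only at e e'
    have : v = u := Nat.eq_of_mul_eq_mul_left hP (by omega)
    rw [this]
  have h2 : ∑ q ∈ E i, 1 / Real.sqrt (q.2 : ℝ) =
      ∑ t ∈ (E i).image Prod.snd, 1 / Real.sqrt (t : ℝ) :=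
    (sum_image (f := fun t : ℕ => 1 / Real.sqrt (t : ℝ))
      (fun x hx y hy h => hinj hx hy h)).symm
  rw [h2]
  apply sum_class _ a b P ha hP
  · intro t ht
    obtain ⟨q, hq, rfl⟩ := mem_image.mp ht
    obtain ⟨_, h3, h4, _⟩ := hE i hi q hq
    exact ⟨h3, h4⟩
  · intro t ht t' ht'
    obtain ⟨q, hq, rfl⟩ := mem_image.mp ht
    obtain ⟨q', hq', rfl⟩ := mem_image.mp ht'
    obtain ⟨_, _, _, e⟩ := hE i hi q hq
    obtain ⟨_, _, _, e'⟩ := hE i hi q' hq'
    have h5 : q.2 + P * q.1 ≡ q'.2 + P * q'.1 [MOD P] := by rw [e, e']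
    have h6 : q.2 + P * q.1 ≡ q.2 [MOD P] := by
      simp [Nat.ModEq]
    have h7 : q'.2 + P * q'.1 ≡ q'.2 [MOD P] := by
      simp [Nat.ModEq]
    exact h6.symm.trans (h5.trans h7)

end Pool.Agent.Helper72.T4
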