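import Pool.Agent.Helper27.T4.Sch

/-!
# T4' (MP_12a1af), block N: orders of consecutive nodes
-/

namespace Pool.Agent.Helper72.T4

open Finset Pool.Agent.Helper5.ET Pool.Agent.Helper27.T4

theorem cnt_static (f : Fin 3) (y z : ℕ) (h : y ≤ z) (h1 : ∀ t, y ≤ t → t < z → own t ≠ f) :
    cnt f z = cnt f y := by
  unfold cnt
  apply le_antisymm
  · apply Finset.card_le_card
    intro t ht
    rw [Finset.mem_filter, Finset.mem_range] at ht ⊢
    refine ⟨?_, ht.2⟩
    by_contra h2
    exact h1 t (by omega) ht.1 ht.2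
  · exact Finset.card_le_card (Finset.filter_subset_filter _ (Finset.range_subset_range.mpr h))

theorem own_between (c y : ℕ) (h1 : tau c ≤ y) (h2 : y < tau (c + 1)) : own y = own (tau c) := by
  unfold own
  congr 2
  exact era_between c y h1 h2

theorem rk_lt (K : ℕ) (f : Fin 3) : rk K f < 3 := Nat.mod_lt _ (by norm_num)

theorem rk_succ (K : ℕ) (f : Fin 3) : rk (K + 1) f = (rk K f + 1) % 3 := by
  have := f.isLt
  unfold rk
  omega

theorem rk_inj (K : ℕ) (f g : Fin 3) (h : rk K f = rk K g) : f = g := by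
  have h1 := f.isLt
  have h2 := g.isLt
  apply Fin.ext
  unfold rk at h
  omega

theorem rk_own (y : ℕ) : rk (era y) (own y) = 0 := by
  unfold rk own
  simp only
  omega

theorem rk_own_succ (y : ℕ) : rk (era y + 1) (own y) = 1 := by
  rw [rk_succ, rk_own]

theorem mem_pre {l : ℕ} {f g : Fin 3} (h : g ∈ pre l f) : rk (ordK l) g < rk (ordK l) f := by
  unfold pre at h
  split_ifs at h with h1
  · simp at h
  · simpa using h

theorem ordK_cases (c : ℕ) :
    (ordK (tau (c + 1)) = era (tau c) ∧ era (tau (c + 1)) = era (tau c) ∧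
      ordK (tau c) = era (tau c)) ∨
    (ordK (tau (c + 1)) = era (tau c) + 1 ∧
      (era (tau (c + 1)) = era (tau c) ∨ era (tau (c + 1)) = era (tau c) + 1) ∧
      (ordK (tau c) = era (tau c) + 1 ∨ (ordK (tau c) = era (tau c) ∧ iso (tau c)))) := by
  obtain ⟨h1, h2⟩ := era_spec (tau c) (tau_ge c)
  have h3 := tau_succ_le c
  have h4 : tau (c + 1) = tau c + wof (bb (era (tau c))) := rfl
  have h5 := wof_le (bb_ge_pow (era (tau c)))
  have h6 := (bb_step (era (tau c))).1
  have h7 := wof_bb_pos (era (tau c))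
  obtain ⟨k, hk⟩ : ∃ k, k = era (tau c) := ⟨_, rfl⟩
  rw [← hk] at h1 h2 h3 h4 h5 h6 h7 ⊢
  rcases Nat.lt_or_ge (tau (c + 1)) (bb (k + 1)) with hlt | hge
  · have h8 : era (tau (c + 1)) = k := era_eq _ _ (by omega) hlt
    unfold ordK iso
    rw [h8, ← hk]
    by_cases h9 : 5 * (tau (c + 1) - bb k) < 2 * (bb (k + 1) - bb k)
    · left
      rw [if_pos h9, if_pos (by omega)]
      exact ⟨rfl, rfl, rfl⟩
    · right
      rw [if_neg h9]
      refine ⟨rfl, Or.inl rfl, ?_⟩
      by_cases h10 : 5 * (tau c - bb k) < 2 * (bb (k + 1) - bb k)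
      · right
        rw [if_pos h10]
        exact ⟨rfl, by omega, h10⟩
      · left
        rw [if_neg h10]
  · have h8 : tau (c + 1) = bb (k + 1) := le_antisymm h3 hge
    have h9 : era (tau (c + 1)) = k + 1 := by rw [h8]; exact era_bb _
    right
    have h10 := bb_lt_succ (k + 1)
    refine ⟨?_, Or.inr h9, ?_⟩
    · unfold ordK
      rw [h9, if_pos (by omega)]
    · left
      unfold ordK
      rw [← hk, if_neg (by omega)]

theorem pre_sub (c : ℕ) (f g : Fin 3) (h : g ∈ pre (tau c) f) :
    rk (ordK (tau (c + 1))) g < rk (ordK (tau (c + 1))) f := by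
  rcases ordK_cases c with ⟨h1, h2, h3⟩ | ⟨h1, h2, h3 | ⟨h3, h4⟩⟩
  · have := mem_pre h
    rw [h3] at this
    rwa [h1]
  · have := mem_pre h
    rw [h3] at this
    rwa [h1]
  · have h5 := mem_pre h
    rw [h3] at h5
    rw [h1, rk_succ, rk_succ]
    have h6 := rk_lt (era (tau c)) f
    have h7 : rk (era (tau c)) f ≠ 2 := by
      intro h8
      unfold pre at h
      rw [if_pos ⟨h4, by rw [h3]; exact h8⟩] at h
      simp at h
    omega

theorem pre_empty_of_rk {l : ℕ} {f : Fin 3} (h : rk (ordK l) f = 0) : pre l f = ∅ := by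
  rw [Finset.eq_empty_iff_forall_notMem]
  intro g hg
  have := mem_pre hg
  omega

/-- the two cases of a step -/
theorem step_cases (c : ℕ) :
    (pre (tau (c + 1)) (own (tau c)) = ∅ ∧ pre (tau c) (own (tau c)) = ∅ ∧
      ∀ f, f ≠ own (tau c) → cnt f (tau (c + 2)) = cnt f (tau c)) ∨
    ∃ F, F ≠ own (tau c) ∧ pre (tau (c + 1)) (own (tau c)) ⊆ {F} ∧ pre (tau c) (own (tau c)) ⊆ {F} ∧
      pre (tau (c + 1)) F = ∅ ∧ pre (tau c) F = ∅ ∧
      ∀ f, f ≠ own (tau c) → f ≠ F → cnt f (tau (c + 2)) = cnt f (tau c) := by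
  have hm1 : tau c ≤ tau (c + 1) := tau_strictMono.monotone (Nat.le_succ c)
  have hm2 : tau (c + 1) ≤ tau (c + 2) := tau_strictMono.monotone (Nat.le_succ (c + 1))
  rcases ordK_cases c with ⟨h1, h2, h3⟩ | ⟨h1, h2, h3⟩
  · left
    refine ⟨pre_empty_of_rk (by rw [h1]; exact rk_own _),
      pre_empty_of_rk (by rw [h3]; exact rk_own _), ?_⟩
    intro f hf
    apply cnt_static f _ _ (by omega)
    intro t ht1 ht2
    rcases Nat.lt_or_ge t (tau (c + 1)) with h | h
    · rw [own_between c t ht1 h]
      exact fun h => hf h.symm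
    · rw [own_between (c + 1) t h ht2]
      have : own (tau (c + 1)) = own (tau c) := by
        unfold own
        rw! [h2]
        rfl
      rw [this]
      exact fun h => hf h.symm
  · right
    refine ⟨⟨(era (tau c) + 1) % 3, Nat.mod_lt _ (by norm_num)⟩, ?_, ?_, ?_, ?_, ?_, ?_⟩
    · intro h
      unfold own at h
      rw [Fin.mk.injEq] at h
      omega
    · intro g hg
      have h4 := mem_pre hg
      rw [h1, rk_own_succ] at h4
      rw [Finset.mem_singleton]
      apply Fin.ext
      simp only
      have := g.isLt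
      unfold rk at h4
      omega
    · intro g hg
      have h4 := pre_sub c _ _ hg
      rw [h1, rk_own_succ] at h4
      rw [Finset.mem_singleton]
      apply Fin.ext
      simp only
      have := g.isLt
      unfold rk at h4
      omega
    · apply pre_empty_of_rk
      rw [h1]
      unfold rk
      simp only
      omega
    · rw [Finset.eq_empty_iff_forall_notMem]
      intro g hg
      have h4 := pre_sub c _ _ hg
      rw [h1] at h4
      unfold rk at h4
      simp only at h4
      omega
    · intro f hf hF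
      apply cnt_static f _ _ (by omega)
      intro t ht1 ht2
      rcases Nat.lt_or_ge t (tau (c + 1)) with h | h
      · rw [own_between c t ht1 h]
        exact fun h => hf h.symm
      · rw [own_between (c + 1) t h ht2]
        rcases h2 with h2 | h2
        · have : own (tau (c + 1)) = own (tau c) := by
            unfold own
            rw! [h2]
            rfl
          rw [this]
          exact fun h => hf h.symm
        · have : own (tau (c + 1)) = ⟨(era (tau c) + 1) % 3, Nat.mod_lt _ (by norm_num)⟩ := by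
            unfold own
            rw! [h2]
            rfl
          rw [this]
          exact fun h => hF h.symm

end Pool.Agent.Helper72.T4
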