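import Pool.Agent.Helper72.T4.NearTheta
import Pool.Agent.Helper97.ET.Cnt

/-!
# T4' (MP_12a1af), block N: the step of the node `l`
-/

namespace Pool.Agent.Helper72.T4

open Finset Pool.Agent.Helper5.ET Pool.Agent.Helper27.T4 Pool.Agent.Helper3.T4

/-- the sum of the codes is linear in the label -/
theorem cs_lin (s s' : ℕ) (w : Key → ℕ) (he : se s' = se s) (hl : sl s' ≤ se s) (r : ℕ)
    (hr : r.Coprime (pr (own (sl s'))))
    (hc : cnt (own (sl s')) (se s) ≤ 2 * cnt (own (sl s')) (sl s') + 1) :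
    ∃ E : ℕ, E.Coprime (pr (own (sl s'))) ∧ ∀ q : (Fin 3 → ℕ) × (Fin 3 → ℕ),
      q.1 ∈ XX s → q.2 ∈ XX s' → rr s' q = r →
      cs s s' w q % Nj (se s) = (cv pr_prime pr_inj (av (se s)) (th s s' w q).1 +
        Nj (sl s') * (E * ii s' q)) % Nj (se s) := by
  classical
  set G := own (sl s') with hG
  obtain ⟨β, hβ, hlin⟩ := grow (pr_prime G) (pr_ne_two G) (cnt G (se s)) (cnt G (sl s')) r hr hc
  set b' : Fin 3 → ℕ := fun f => if f = G then cnt G (sl s') else cnt f (se s) with hb'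
  obtain ⟨E0, hE0, hex⟩ := exists_single pr_prime pr_inj (a := av (se s)) (b := b') G
    (fun i hi => by rw [hb']; simp only; rw [if_neg hi]; rfl) β
  have hex2 : ∀ (k v : ∀ f : Fin 3, ZMod (pr f ^ av (se s) f)) (n : ℕ), (∀ f, f ≠ G → v f = k f) →
      v G = k G + ((pr G ^ b' G * (β * n) : ℕ) : ZMod (pr G ^ av (se s) G)) →
      cc pr_prime pr_inj (av (se s)) v = cc pr_prime pr_inj (av (se s)) k +
        ((NN pr b' * (E0 * n) : ℕ) : ZMod (NN pr (av (se s)))) := by
    intro k v n h1 h2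
    rw [← hex k n]
    congr 1
    funext f
    unfold Function.update
    by_cases hf : f = G
    · subst hf
      rw [dif_pos rfl, h2]
    · rw [dif_neg hf, h1 f hf]
  set D : ℕ := ∏ f ∈ Finset.univ.erase G, pr f ^ (cnt f (se s) - cnt f (sl s')) with hD
  have hNN : NN pr b' = Nj (sl s') * D := by
    have h1 : NN pr b' = pr G ^ b' G * ∏ f ∈ Finset.univ.erase G, pr f ^ b' f :=
      (Finset.mul_prod_erase Finset.univ (fun f => pr f ^ b' f) (Finset.mem_univ G)).symm
    have h2 : Nj (sl s') = pr G ^ cnt G (sl s') * ∏ f ∈ Finset.univ.erase G, pr f ^ cnt f (sl s') :=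
      (Finset.mul_prod_erase Finset.univ (fun f => pr f ^ cnt f (sl s')) (Finset.mem_univ G)).symm
    rw [h1, h2, hD, mul_assoc, ← Finset.prod_mul_distrib]
    have h3 : b' G = cnt G (sl s') := by rw [hb']; simp
    rw [h3]
    congr 1
    refine Finset.prod_congr rfl (fun f hf => ?_)
    have h4 : b' f = cnt f (se s) := by
      rw [hb']
      simp only
      rw [if_neg (Finset.ne_of_mem_erase hf)]
    rw [h4, ← pow_add, Nat.add_sub_cancel' (cnt_mono f hl)]
  have hDc : D.Coprime (pr G) := by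
    rw [hD]
    apply Nat.Coprime.prod_left
    intro f hf
    apply Nat.Coprime.pow_left
    rw [Nat.coprime_primes (pr_prime f) (pr_prime G)]
    exact fun h => (Finset.ne_of_mem_erase hf) (pr_inj h)
  refine ⟨D * E0, Nat.Coprime.mul_left hDc (hE0 hβ), ?_⟩
  intro q hq1 hq2 hqr
  have hc1 := (XX_mem hq1 G).2.1
  have hc2 := (XX_mem hq2 G).2.1
  obtain ⟨k, hk⟩ : ∃ k : ∀ f : Fin 3, ZMod (pr f ^ av (se s) f), k = (th s s' w q).1 := ⟨_, rfl⟩
  have hkG : k G = Lg (pr G) (cnt G (se s)) (rr s' q) +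
      ((hv s w G q.1 + hv s' w G q.2 : ℕ) : ZMod (pr G ^ cnt G (se s))) := by
    rw [hk]
    unfold th
    simp only
    rw [if_pos hG]
  have hkf : ∀ f, f ≠ G → ((cs s s' w q : ℕ) : ZMod (pr f ^ av (se s) f)) = k f := by
    intro f hf
    rw [hk]
    unfold th
    simp only
    rw [if_neg (by rw [← hG]; exact hf)]
    rfl
  have key : ((cs s s' w q : ℕ) : ZMod (NN pr (av (se s)))) =
      cc pr_prime pr_inj (av (se s)) k +
        ((NN pr b' * (E0 * ii s' q) : ℕ) : ZMod (NN pr (av (se s)))) := by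
    have h9 : ((cs s s' w q : ℕ) : ZMod (NN pr (av (se s)))) = cc pr_prime pr_inj (av (se s))
        (fun f => ((cs s s' w q : ℕ) : ZMod (pr f ^ av (se s) f))) := by
      rw [natCast_eq_cc_iff]
      intro f
      rfl
    rw [h9]
    apply hex2 k _ (ii s' q) hkf
    have h3 : b' G = cnt G (sl s') := by rw [hb']; simp
    rw [h3]
    have h5 := cs_cast s s' w q G (cnt G (se s)) le_rfl (by rw [he]) hc1 hc2
    have h6 : Lg (pr G) (cnt G (se s)) (q.1 G) + Lg (pr G) (cnt G (se s)) (q.2 G) =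
        Lg (pr G) (cnt G (se s)) (rr s' q) +
          ((pr G ^ cnt G (sl s') * (β * ii s' q) : ℕ) : ZMod (pr G ^ cnt G (se s))) := by
      rw [← Lg_mul (pr_prime G) (pr_ne_two G) _ _ _ hc1 hc2, hqr, ← hlin (ii s' q), ← hqr]
      congr 1
      unfold rr ii
      rw [← hG, mul_comm (_ / _) _]
      exact (Nat.mod_add_div _ _).symm
    have h7 : ((cs s s' w q : ℕ) : ZMod (pr G ^ cnt G (se s))) =
        Lg (pr G) (cnt G (se s)) (rr s' q) +
        ((hv s w G q.1 + hv s' w G q.2 : ℕ) : ZMod (pr G ^ cnt G (se s))) +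
          ((pr G ^ cnt G (sl s') * (β * ii s' q) : ℕ) : ZMod (pr G ^ cnt G (se s))) := by
      rw [h5, h6]
      ring
    rw [hkG]
    exact h7
  have h8 : ((cs s s' w q : ℕ) : ZMod (NN pr (av (se s)))) =
      ((cv pr_prime pr_inj (av (se s)) k +
        Nj (sl s') * (D * E0 * ii s' q) : ℕ) : ZMod (NN pr (av (se s)))) := by
    rw [key, ← cv_cast pr_prime pr_inj (av (se s)) k, ← Nat.cast_add, hNN]
    congr 2
    ring
  rw [ZMod.natCast_eq_natCast_iff] at h8
  rw [hk] at h8
  exact h8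

/-- few pairs with a given label -/
theorem fiber_card (c s s' : ℕ) (hs : s = 2 * c + 2) (hs' : s' = 2 * c + 1) (w : Key → ℕ)
    (n i : ℕ) (T : Finset ((Fin 3 → ℕ) × (Fin 3 → ℕ)))
    (hT : ∀ q ∈ T, q.1 ∈ XX s ∧ q.2 ∈ XX s' ∧ cs s s' w q % Nj (sl s') = n % Nj (sl s') ∧
      ii s' q = i) : T.card ≤ ∏ f, (2 * (pr f - 1)) := by
  classical
  have e1 : sl s = tau (c + 1) := by
    rw [hs, show 2 * c + 2 = 2 * (c + 1) by ring, sl_even]
  have e2 : sl s' = tau c := by rw [hs', sl_odd]
  have e3 : se s = tau (c + 2) := by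
    rw [hs, show 2 * c + 2 = 2 * (c + 1) by ring, se_even]
  have e4 : se s' = tau (c + 2) := by rw [hs', se_odd]
  have hle : sl s' ≤ se s := by
    rw [e2, e3]
    exact tau_strictMono.monotone (by omega)
  have hle' : sl s' ≤ se s' := (sl_lt_se s').le
  set φ : (Fin 3 → ℕ) × (Fin 3 → ℕ) → (Fin 3 → ℕ × ℕ) := fun q f => (q.1 f, q.2 f) with hφ
  have hinj : Set.InjOn φ (T : Set _) := by
    intro q _ q' _ h
    refine Prod.ext (funext fun f => ?_) (funext fun f => ?_)
    · exact congrArg Prod.fst (congrFun h f)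
    · exact congrArg Prod.snd (congrFun h f)
  rw [← Finset.card_image_of_injOn hinj]
  refine card_code_pairs_quot pr_prime pr_ne_two (av (sl s')) (rk (ordK (sl s)))
    (fun f x => ((hv s w f x : ℕ) : ZMod (pr f ^ av (sl s') f)))
    (fun f x => ((hv s' w f x : ℕ) : ZMod (pr f ^ av (sl s') f)))
    (fun f x y h => by
      rw [hv_congr s w f x y (fun g hg => h g (mem_pre hg))])
    (fun f x y h => by
      rw [hv_congr s' w f x y (fun g hg => h g (by
        rw [e2] at hg
        rw [e1]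
        exact pre_sub c f g hg))])
    (fun f => ((n : ℕ) : ZMod (pr f ^ av (sl s') f)))
    (fun f => if f = own (sl s') then i else 0) (T.image φ) ?_
  intro g hg f
  rw [Finset.mem_image] at hg
  obtain ⟨q, hq, rfl⟩ := hg
  obtain ⟨h1, h2, h3, h4⟩ := hT q hq
  obtain ⟨a1, a2, a3⟩ := XX_mem h1 f
  obtain ⟨b1, b2, b3⟩ := XX_mem h2 f
  refine ⟨a1, b1, a2, b2, ?_, ?_⟩
  · show (q.1 f * q.2 f) / pr f ^ (cnt f (sl s') + 1) = if f = own (sl s') then i else 0
    by_cases hf : f = own (sl s')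
    · rw [if_pos hf, ← h4, hf]
      rfl
    · rw [if_neg hf]
      have hst : cnt f (sl s) = cnt f (sl s') := by
        rw [e1, e2]
        apply cnt_static f _ _ (tau_strictMono.monotone (Nat.le_succ c))
        intro t ht1 ht2
        rw [own_between c t ht1 ht2, ← e2]
        exact fun h => hf h.symm
      rw [hst] at a3
      have h5 := (prod_param (pr_prime f) _ _ (q.1 f) (q.2 f) le_rfl a3 b3).2
      rw [Nat.sub_self, Nat.zero_div, pow_zero] at h5
      exact Nat.lt_one_iff.mp h5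
  · have h5 := cast_of_mod _ _ _ h3 f
    rw [cs_cast s s' w q f _ (cnt_mono f hle) (cnt_mono f hle') a2 b2] at h5
    show (Lg (pr f) (cnt f (sl s')) (q.1 f) + ((hv s w f q.1 : ℕ) : ZMod (pr f ^ cnt f (sl s')))) +
      (Lg (pr f) (cnt f (sl s')) (q.2 f) + ((hv s' w f q.2 : ℕ) : ZMod (pr f ^ cnt f (sl s')))) =
      ((n : ℕ) : ZMod (pr f ^ cnt f (sl s')))
    rw [← h5]
    push_cast
    ring

/-- the growth of the head is small against its size -/
theorem cnt_step : ∃ c0 : ℕ, ∀ c ≥ c0, ∀ f : Fin 3,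
    cnt f (tau (c + 2)) ≤ 2 * cnt f (tau c) + 1 := by
  obtain ⟨y0, hy0⟩ := Pool.Agent.Helper97.ET.cnt_ge
  refine ⟨y0, fun c hc f => ?_⟩
  have h1 : y0 ≤ tau c := le_trans hc (tau_strictMono.id_le c)
  have h2 := (hy0 (tau c) h1 f).1
  have h3 : tau (c + 2) ≤ tau c + 3 * gap (tau c) := by
    have := gap_ratio c
    have h4 : tau (c + 2) = tau (c + 1) + gap (tau (c + 1)) := rfl
    have h5 : tau (c + 1) = tau c + gap (tau c) := rfl
    omega
  have h4 := gap_le (tau c) (tau_ge c)
  have h5 : cnt f (tau (c + 2)) ≤ cnt f (tau c) + (tau (c + 2) - tau c) := by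
    unfold cnt
    have hsub : (range (tau (c + 2))).filter (fun y => own y = f) ⊆
        (range (tau c)).filter (fun y => own y = f) ∪ Finset.Ico (tau c) (tau (c + 2)) := by
      intro t ht
      rw [Finset.mem_filter, Finset.mem_range] at ht
      rw [Finset.mem_union, Finset.mem_filter, Finset.mem_range, Finset.mem_Ico]
      rcases Nat.lt_or_ge t (tau c) with h | h
      · exact Or.inl ⟨h, ht.2⟩
      · exact Or.inr ⟨h, ht.1⟩
    refine le_trans (Finset.card_le_card hsub) (le_trans (Finset.card_union_le _ _) ?_)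
    rw [Nat.card_Ico]
  have h6 : (tau c : ℝ) ≤ 6 * cnt f (tau c) := by linarith
  have h7 : tau c ≤ 6 * cnt f (tau c) := by exact_mod_cast h6
  omega

/-- **Rp_step** -/
theorem Rp_step : ∃ (C1 c0 : ℕ), ∀ c ≥ c0, ∀ s s' : ℕ, s = 2 * c + 2 → s' = 2 * c + 1 →
    ∀ (w : Key → ℕ) (R : ℕ)
    (_hR : ∀ α E κ n1 : ℕ, E.Coprime (pr (own (sl s'))) → κ ≤ 1 →
      (((range (pr (own (sl s')) ^ ((cnt (own (sl s')) (sl s) - cnt (own (sl s')) (sl s')) / 2))) ×ˢ
          ((VV s w) ×ˢ (VV s' w))).filter (fun t => (α + E * t.1) % (Nj (se s) / Nj (sl s')) +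
            κ * (Nj (se s) / Nj (sl s')) + Nj (sl s) / Nj (sl s') * t.2.1 + t.2.2 = n1)).card ≤ R)
    (n : ℕ), Rp s s' w n ≤ C1 * R := by
  classical
  obtain ⟨c0, hc0⟩ := cnt_step
  refine ⟨(∏ f, (2 * (pr f - 1))) * ((2 * 1000037 * 1000037) * 2), c0, ?_⟩
  intro c hc s s' hs hs' w R hR n
  have e1 : sl s = tau (c + 1) := by
    rw [hs, show 2 * c + 2 = 2 * (c + 1) by ring, sl_even]
  have e2 : sl s' = tau c := by rw [hs', sl_odd]
  have e3 : se s = tau (c + 2) := by
    rw [hs, show 2 * c + 2 = 2 * (c + 1) by ring, se_even]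
  have e4 : se s' = tau (c + 2) := by rw [hs', se_odd]
  have hle : sl s' ≤ se s := by
    rw [e2, e3]
    exact tau_strictMono.monotone (by omega)
  have hle1 : sl s' ≤ sl s := by
    rw [e2, e1]
    exact tau_strictMono.monotone (by omega)
  set N := Nj (se s) with hN
  set N' := Nj (sl s') with hN'
  set L := Nj (sl s) with hL
  have hNpos : 0 < N := Nj_pos _
  have hN'pos : 0 < N' := Nj_pos _
  have hQ : N = N' * (N / N') := (Nat.mul_div_cancel' (Nj_dvd hle)).symm
  have hq : L = N' * (L / N') := (Nat.mul_div_cancel' (Nj_dvd hle1)).symm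
  set Q := N / N' with hQd
  set q0 := L / N' with hq0
  set G := own (sl s') with hG
  set I := pr G ^ ((cnt G (sl s) - cnt G (sl s')) / 2) with hI
  -- quadruples
  set U := ((XX s ×ˢ VV s w) ×ˢ (XX s' ×ˢ VV s' w)).filter
    (fun t => el s w t.1.1 t.1.2 + el s' w t.2.1 t.2.2 = n) with hU
  have hRU : Rp s s' w n ≤ U.card := by
    unfold Rp
    refine le_trans (Finset.card_le_card ?_) (Finset.card_image_le
      (f := fun t : ((Fin 3 → ℕ) × ℕ) × ((Fin 3 → ℕ) × ℕ) =>
        (el s w t.1.1 t.1.2, el s' w t.2.1 t.2.2)))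
    intro q hq
    rw [Finset.mem_filter, Finset.mem_product] at hq
    obtain ⟨⟨ha, ha'⟩, hsum⟩ := hq
    unfold AA at ha ha'
    rw [Finset.mem_image] at ha ha'
    obtain ⟨t, ht, ht1⟩ := ha
    obtain ⟨t', ht', ht1'⟩ := ha'
    rw [Finset.mem_image]
    refine ⟨(t, t'), ?_, ?_⟩
    · rw [hU, Finset.mem_filter, Finset.mem_product]
      refine ⟨⟨ht, ht'⟩, ?_⟩
      show el s w t.1 t.2 + el s' w t'.1 t'.2 = n
      rw [ht1, ht1']
      exact hsum
    · exact Prod.ext ht1 ht1'
  set pq : ((Fin 3 → ℕ) × ℕ) × ((Fin 3 → ℕ) × ℕ) → (Fin 3 → ℕ) × (Fin 3 → ℕ) :=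
    fun t => (t.1.1, t.2.1) with hpq
  have hmem : ∀ t ∈ U, t.1.1 ∈ XX s ∧ t.1.2 ∈ VV s w ∧ t.2.1 ∈ XX s' ∧ t.2.2 ∈ VV s' w ∧
      cs s s' w (pq t) + (L * t.1.2 + N' * t.2.2) = n := by
    intro t ht
    rw [hU, Finset.mem_filter, Finset.mem_product, Finset.mem_product, Finset.mem_product] at ht
    obtain ⟨⟨⟨a1, a2⟩, a3, a4⟩, a5⟩ := ht
    refine ⟨a1, a2, a3, a4, ?_⟩
    unfold el at a5
    rw [← a5]
    simp only [cs, hpq, hL, hN']
    ring
  have hmod : ∀ t ∈ U, cs s s' w (pq t) % N' = n % N' := by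
    intro t ht
    obtain ⟨_, _, _, _, h5⟩ := hmem t ht
    rw [← h5, hq, mul_assoc, ← mul_add]
    exact (Nat.add_mul_mod_self_left _ _ _).symm
  have hlt : ∀ t, cs s s' w (pq t) < 2 * N := by
    intro t
    have h1 : code s w t.1.1 < N := cv_lt pr_prime pr_inj _ _
    have h2 : code s' w t.2.1 < N := by
      have := cv_lt pr_prime pr_inj (av (se s')) (Pool.Agent.Helper5.ET.cmp s' w t.2.1)
      have h3 : N = NN pr (av (se s')) := by rw [hN, e3, e4]; rfl
      rw [h3]
      exact this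
    simp only [cs, hpq]
    omega
  -- the data
  set Θ := (U.image pq).image (th s s' w) with hΘ
  have hΘc : Θ.card ≤ 2 * 1000037 * 1000037 := by
    refine theta_card c s s' hs hs' w n (U.image pq) ?_
    intro q hq
    rw [Finset.mem_image] at hq
    obtain ⟨t, ht, rfl⟩ := hq
    obtain ⟨h1, _, h3, _, _⟩ := hmem t ht
    exact ⟨h1, h3, hmod t ht⟩
  -- fibers
  have hfib : ∀ z ∈ Θ ×ˢ range 2, (U.filter (fun t => (th s s' w (pq t),
      cs s s' w (pq t) / N) = z)).card ≤ (∏ f, (2 * (pr f - 1))) * R := by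
    intro z hz
    set Uz := U.filter (fun t => (th s s' w (pq t), cs s s' w (pq t) / N) = z) with hUz
    rcases Uz.eq_empty_or_nonempty with hem | ⟨t0, ht0⟩
    · rw [hem]; simp
    · rw [hUz, Finset.mem_filter] at ht0
      obtain ⟨ht0, ht0z⟩ := ht0
      obtain ⟨m1, _, m3, _, _⟩ := hmem t0 ht0
      have hr0 : (rr s' (pq t0)).Coprime (pr G) :=
        mod_coprime _ _ (Nat.Coprime.mul_left (XX_mem m1 G).2.1 (XX_mem m3 G).2.1)
      obtain ⟨E, hE, hlin⟩ := cs_lin s s' w (by rw [e3, e4]) hle (rr s' (pq t0)) hr0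
        (by rw [e3, e2]; exact hc0 c hc _)
      have hκ : z.2 ≤ 1 := by
        rw [Finset.mem_product, Finset.mem_range] at hz
        omega
      set α := cv pr_prime pr_inj (av (se s)) z.1.1 / N' with hα
      set W := ((range I) ×ˢ ((VV s w) ×ˢ (VV s' w))).filter
        (fun t => (α + E * t.1) % Q + z.2 * Q + q0 * t.2.1 + t.2.2 = n / N') with hW
      have hWR : W.card ≤ R := hR α E z.2 (n / N') hE hκ
      refine le_trans (Finset.card_le_mul_card_image_of_maps_to
        (f := fun t => (ii s' (pq t), (t.1.2, t.2.2))) (t := W) ?_ (∏ f, (2 * (pr f - 1))) ?_)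
        (Nat.mul_le_mul_left _ hWR)
      · intro t ht
        rw [hUz, Finset.mem_filter] at ht
        obtain ⟨ht, htz⟩ := ht
        obtain ⟨h1, h2, h3, h4, h5⟩ := hmem t ht
        rw [hW, Finset.mem_filter, Finset.mem_product, Finset.mem_product]
        refine ⟨⟨?_, h2, h4⟩, ?_⟩
        · rw [Finset.mem_range]
          exact (prod_param (pr_prime G) (cnt G (sl s)) (cnt G (sl s')) (t.1.1 G) (t.2.1 G)
            (cnt_mono G hle1) (XX_mem h1 G).2.2 (XX_mem h3 G).2.2).2
        · -- the equation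
          have hth : th s s' w (pq t) = th s s' w (pq t0) := by
            have a1 := congrArg Prod.fst htz
            have a2 := congrArg Prod.fst ht0z
            exact a1.trans a2.symm
          have hz1 : z.1 = th s s' w (pq t) := (congrArg Prod.fst htz).symm
          have hz2 : z.2 = cs s s' w (pq t) / N := (congrArg Prod.snd htz).symm
          have hrr : rr s' (pq t) = rr s' (pq t0) := congrArg Prod.snd hth
          have h6 := hlin (pq t) h1 h3 hrr
          rw [← hz1] at h6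
          have h7 : cs s s' w (pq t) % N = (cv pr_prime pr_inj (av (se s)) z.1.1) % N' +
              N' * ((α + E * ii s' (pq t)) % Q) := by
            rw [h6]
            show (cv pr_prime pr_inj (av (se s)) z.1.1 + N' * (E * ii s' (pq t))) % N = _
            rw [hQ, Nat.mod_mul, Nat.add_mul_mod_self_left, Nat.add_mul_div_left _ _ hN'pos]
          have h8 : n = (cv pr_prime pr_inj (av (se s)) z.1.1) % N' + N' *
              ((α + E * ii s' (pq t)) % Q + z.2 * Q + q0 * t.1.2 + t.2.2) := by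
            rw [← h5, ← Nat.div_add_mod (cs s s' w (pq t)) N, h7, ← hz2]
            have h9 : N * z.2 = N' * (z.2 * Q) := by
              conv_lhs => rw [hQ]
              ring
            have h10 : L * t.1.2 = N' * (q0 * t.1.2) := by
              conv_lhs => rw [hq]
              ring
            rw [h9, h10]
            ring
          show (α + E * ii s' (pq t)) % Q + z.2 * Q + q0 * t.1.2 + t.2.2 = n / N'
          rw [h8, Nat.add_mul_div_left _ _ hN'pos,
            Nat.div_eq_of_lt (Nat.mod_lt _ hN'pos), zero_add]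
      · intro y _
        refine le_trans ?_ (fiber_card c s s' hs hs' w n y.1
          ((Uz.filter (fun t => (ii s' (pq t), (t.1.2, t.2.2)) = y)).image pq) ?_)
        · rw [Finset.card_image_of_injOn]
          intro t ht t' ht' h
          rw [Finset.mem_coe, Finset.mem_filter] at ht ht'
          have a1 : t.1.2 = t'.1.2 := by
            have b1 := congrArg (fun y : ℕ × ℕ × ℕ => y.2.1) ht.2
            have b2 := congrArg (fun y : ℕ × ℕ × ℕ => y.2.1) ht'.2
            exact b1.trans b2.symm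
          have a2 : t.2.2 = t'.2.2 := by
            have b1 := congrArg (fun y : ℕ × ℕ × ℕ => y.2.2) ht.2
            have b2 := congrArg (fun y : ℕ × ℕ × ℕ => y.2.2) ht'.2
            exact b1.trans b2.symm
          have a3 : t.1.1 = t'.1.1 :=
            congrArg (fun y : (Fin 3 → ℕ) × (Fin 3 → ℕ) => y.1) h
          have a4 : t.2.1 = t'.2.1 :=
            congrArg (fun y : (Fin 3 → ℕ) × (Fin 3 → ℕ) => y.2) h
          exact Prod.ext (Prod.ext a3 a1) (Prod.ext a4 a2)
        · intro q hq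
          rw [Finset.mem_image] at hq
          obtain ⟨t, ht, rfl⟩ := hq
          rw [Finset.mem_filter, hUz, Finset.mem_filter] at ht
          obtain ⟨⟨ht, _⟩, hty⟩ := ht
          obtain ⟨h1, _, h3, _, _⟩ := hmem t ht
          exact ⟨h1, h3, hmod t ht, congrArg Prod.fst hty⟩
  have hU2 : U.card ≤ ((∏ f, (2 * (pr f - 1))) * R) * (Θ ×ˢ range 2).card := by
    refine Finset.card_le_mul_card_image_of_maps_to
      (f := fun t => (th s s' w (pq t), cs s s' w (pq t) / N)) ?_ _ hfib
    intro t ht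
    rw [Finset.mem_product, Finset.mem_range]
    refine ⟨Finset.mem_image_of_mem _ (Finset.mem_image_of_mem _ ht), ?_⟩
    rw [Nat.div_lt_iff_lt_mul hNpos]
    exact hlt t
  rw [Finset.card_product, Finset.card_range] at hU2
  calc Rp s s' w n ≤ U.card := hRU
    _ ≤ ((∏ f, (2 * (pr f - 1))) * R) * (Θ.card * 2) := hU2
    _ ≤ ((∏ f, (2 * (pr f - 1))) * R) * ((2 * 1000037 * 1000037) * 2) :=
        Nat.mul_le_mul_left _ (Nat.mul_le_mul_right _ hΘc)
    _ = _ := by ring

end Pool.Agent.Helper72.T4
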