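import Pool.Agent.Helper72.T4.NearAsm
import Pool.Agent.Helper72.T4.NearStep
import Pool.Agent.Helper57.T4.NearVV
import Pool.Agent.Helper21.T4.Same

/-!
# T4' (MP_12a1af), block N: near pairs of states
-/

namespace Pool.Agent.Helper72.T4

open Finset Pool.Agent.Helper5.ET Pool.Agent.Helper27.T4

theorem near_block : ∃ (C : ℝ) (s0 : ℕ), ∀ s ≥ s0, ∀ s', (s' = s ∨ s' + 1 = s) →
    ∀ K : Finset Key, keysOf s ⊆ K → keysOf s' ⊆ K →
      PrLe K (fun w => ∃ n, C * ((sg s : ℝ) / Real.log (sg s)) < Rp s s' w n)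
        (Real.exp (-(Real.sqrt (sl s)))) := by
  obtain ⟨C2, c2, h2⟩ := Pool.Agent.Helper57.T4.VV2
  obtain ⟨C3, c3, h3⟩ := Rp_step
  exact near_of C2 c2 C3 c3 h2 Pool.Agent.Helper21.T4.Rp_same h3

end Pool.Agent.Helper72.T4
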