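import Pool.Agent.Helper72.T4.NearDec
import Pool.Agent.Helper72.T4.NearOrd

/-!
# T4' (MP_12a1af), block N: the number of data of a step
-/

namespace Pool.Agent.Helper72.T4

open Finset Pool.Agent.Helper5.ET Pool.Agent.Helper27.T4 Pool.Agent.Helper3.T4

theorem XX_mem {s : ℕ} {x : Fin 3 → ℕ} (hx : x ∈ XX s) (f : Fin 3) :
    (x f).Prime ∧ (x f).Coprime (pr f) ∧ (x f) ^ 2 < pr f ^ cnt f (sl s) := by
  unfold XX at hx
  rw [Fintype.mem_piFinset] at hx
  have h := hx f
  rw [Finset.mem_filter] at h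
  exact h.2

theorem hv_congr (s : ℕ) (w : Key → ℕ) (f : Fin 3) (x y : Fin 3 → ℕ)
    (h : ∀ g ∈ pre (sl s) f, x g = y g) : hv s w f x = hv s w f y := by
  unfold hv
  have : mask (pre (sl s) f) x = mask (pre (sl s) f) y := by
    funext g
    unfold mask
    by_cases hg : g ∈ pre (sl s) f
    · rw [if_pos hg, if_pos hg, h g hg]
    · rw [if_neg hg, if_neg hg]
  rw [this]

/-- sum of the codes -/
noncomputable def cs (s s' : ℕ) (w : Key → ℕ) (q : (Fin 3 → ℕ) × (Fin 3 → ℕ)) : ℕ :=
  code s w q.1 + code s' w q.2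

theorem cs_cast (s s' : ℕ) (w : Key → ℕ) (q : (Fin 3 → ℕ) × (Fin 3 → ℕ)) (f : Fin 3) (m : ℕ)
    (h1 : m ≤ cnt f (se s)) (h2 : m ≤ cnt f (se s')) (hq : (q.1 f).Coprime (pr f))
    (hq' : (q.2 f).Coprime (pr f)) :
    ((cs s s' w q : ℕ) : ZMod (pr f ^ m)) = Lg (pr f) m (q.1 f) + Lg (pr f) m (q.2 f) +
      ((hv s w f q.1 + hv s' w f q.2 : ℕ) : ZMod (pr f ^ m)) := by
  unfold cs
  rw [Nat.cast_add, code_cast s w q.1 f m h1 hq, code_cast s' w q.2 f m h2 hq']
  push_cast
  ring

/-- the residue of the product of the components of the growing family -/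
def rr (s' : ℕ) (q : (Fin 3 → ℕ) × (Fin 3 → ℕ)) : ℕ :=
  (q.1 (own (sl s')) * q.2 (own (sl s'))) % pr (own (sl s')) ^ (cnt (own (sl s')) (sl s') + 1)

/-- the label -/
def ii (s' : ℕ) (q : (Fin 3 → ℕ) × (Fin 3 → ℕ)) : ℕ :=
  (q.1 (own (sl s')) * q.2 (own (sl s'))) / pr (own (sl s')) ^ (cnt (own (sl s')) (sl s') + 1)

open Classical in
/-- the data of a pair -/
noncomputable def th (s s' : ℕ) (w : Key → ℕ) (q : (Fin 3 → ℕ) × (Fin 3 → ℕ)) :
    (∀ f : Fin 3, ZMod (pr f ^ cnt f (se s))) × ℕ :=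
  (fun f => if f = own (sl s') then
      Lg (pr f) (cnt f (se s)) (rr s' q) +
        ((hv s w f q.1 + hv s' w f q.2 : ℕ) : ZMod (pr f ^ cnt f (se s)))
    else ((cs s s' w q : ℕ) : ZMod (pr f ^ cnt f (se s))), rr s' q)

theorem cast_of_mod (n m j : ℕ) (h : n % Nj j = m % Nj j) (f : Fin 3) :
    (n : ZMod (pr f ^ cnt f j)) = m := by
  rw [ZMod.natCast_eq_natCast_iff]
  exact Nat.ModEq.of_dvd (pow_dvd_NN pr (av j) f) h

/-- the residues of the products have at most `p - 1` values, when the hash values are known -/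
theorem rr_card (s s' : ℕ) (w : Key → ℕ) (n t : ℕ) (he : sl s' ≤ se s)
    (T : Finset ((Fin 3 → ℕ) × (Fin 3 → ℕ)))
    (hT : ∀ q ∈ T, q.1 ∈ XX s ∧ q.2 ∈ XX s' ∧ cs s s' w q % Nj (sl s') = n % Nj (sl s') ∧
      hv s w (own (sl s')) q.1 + hv s' w (own (sl s')) q.2 = t) :
    (T.image (rr s')).card ≤ pr (own (sl s')) - 1 := by
  classical
  set G := own (sl s') with hG
  refine le_trans (Finset.card_le_card ?_)
    (card_Lg_le (pr_prime G) (pr_ne_two G) (cnt G (sl s')) ((n : ZMod (pr G ^ cnt G (sl s'))) - (t : ZMod (pr G ^ cnt G (sl s')))))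
  intro r hr
  rw [Finset.mem_image] at hr
  obtain ⟨q, hq, rfl⟩ := hr
  obtain ⟨h1, h2, h3, h4⟩ := hT q hq
  have hc1 := (XX_mem h1 G).2.1
  have hc2 := (XX_mem h2 G).2.1
  rw [Finset.mem_filter, Finset.mem_range]
  refine ⟨Nat.mod_lt _ (pow_pos (pr_prime G).pos _), mod_coprime _ _ (Nat.Coprime.mul_left hc1 hc2), ?_⟩
  unfold rr
  rw [← hG, Lg_mod, Lg_mul (pr_prime G) (pr_ne_two G) _ _ _ hc1 hc2]
  have h5 := cast_of_mod _ _ _ h3 G
  rw [cs_cast s s' w q G _ (cnt_mono G he) (cnt_mono G (sl_lt_se s').le) hc1 hc2, h4] at h5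
  rw [← h5]
  ring

theorem theta_card (c s s' : ℕ) (hs : s = 2 * c + 2) (hs' : s' = 2 * c + 1) (w : Key → ℕ) (n : ℕ)
    (T : Finset ((Fin 3 → ℕ) × (Fin 3 → ℕ)))
    (hT : ∀ q ∈ T, q.1 ∈ XX s ∧ q.2 ∈ XX s' ∧ cs s s' w q % Nj (sl s') = n % Nj (sl s')) :
    (T.image (th s s' w)).card ≤ 2 * 1000037 * 1000037 := by
  classical
  have e1 : sl s = tau (c + 1) := by
    rw [hs, show 2 * c + 2 = 2 * (c + 1) by ring, sl_even]
  have e2 : sl s' = tau c := by rw [hs', sl_odd]
  have e3 : se s = tau (c + 2) := by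
    rw [hs, show 2 * c + 2 = 2 * (c + 1) by ring, se_even]
  have e4 : se s' = tau (c + 2) := by rw [hs', se_odd]
  have hle : sl s' ≤ se s := by
    rw [e2, e3]
    exact tau_strictMono.monotone (by omega)
  have hle' : sl s' ≤ se s' := (sl_lt_se s').le
  have hpr : ∀ f : Fin 3, pr f ≤ 1000037 := by
    intro f
    fin_cases f <;> simp [pr]
  set G := own (sl s') with hG
  have hsc := step_cases c
  rw [← e1, ← e2, ← hG, ← e3] at hsc
  rcases hsc with ⟨p1, p2, p3⟩ | ⟨F, hF, p1, p2, p3, p4, p5⟩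
  · -- no hashing of the growing family
    have hv1 : ∀ x, hv s w G x = hv s w G 0 := fun x =>
      hv_congr s w G x 0 (fun g hg => by rw [p1] at hg; simp at hg)
    have hv2 : ∀ x, hv s' w G x = hv s' w G 0 := fun x =>
      hv_congr s' w G x 0 (fun g hg => by rw [p2] at hg; simp at hg)
    set Φ : ℕ → (∀ f : Fin 3, ZMod (pr f ^ cnt f (se s))) × ℕ := fun r =>
      (fun f => if f = G then Lg (pr f) (cnt f (se s)) r +
        ((hv s w f 0 + hv s' w f 0 : ℕ) : ZMod (pr f ^ cnt f (se s)))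
        else ((n : ℕ) : ZMod (pr f ^ cnt f (se s))), r) with hΦ
    have hsub : T.image (th s s' w) ⊆ (T.image (rr s')).image Φ := by
      intro y hy
      rw [Finset.mem_image] at hy
      obtain ⟨q, hq, rfl⟩ := hy
      rw [Finset.mem_image]
      refine ⟨rr s' q, Finset.mem_image_of_mem _ hq, ?_⟩
      rw [hΦ]
      unfold th
      simp only [Prod.mk.injEq, and_true]
      funext f
      by_cases hf : f = G
      · rw [if_pos hf, if_pos (by rw [hf])]
        subst hf
        rw [hv1 q.1, hv2 q.2]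
      · rw [if_neg hf, if_neg hf]
        have h5 := cast_of_mod _ _ _ (hT q hq).2.2 f
        rw [← p3 f hf] at h5
        exact h5.symm
    refine le_trans (Finset.card_le_card hsub) (le_trans Finset.card_image_le
      (le_trans (rr_card s s' w n (hv s w G 0 + hv s' w G 0) hle T ?_) ?_))
    · intro q hq
      obtain ⟨h1, h2, h3⟩ := hT q hq
      exact ⟨h1, h2, h3, by rw [← hG, hv1 q.1, hv2 q.2]⟩
    · have := hpr G
      rw [← hG]
      omega
  · have hvG : ∀ x, hv s w G x = hv s w G (fun _ => x F) := fun x =>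
      hv_congr s w G x _ (fun g hg => by
        have := p1 hg
        rw [Finset.mem_singleton] at this
        rw [this])
    have hvG' : ∀ x, hv s' w G x = hv s' w G (fun _ => x F) := fun x =>
      hv_congr s' w G x _ (fun g hg => by
        have := p2 hg
        rw [Finset.mem_singleton] at this
        rw [this])
    have hvF : ∀ x, hv s w F x = hv s w F 0 := fun x =>
      hv_congr s w F x 0 (fun g hg => by rw [p3] at hg; simp at hg)
    have hvF' : ∀ x, hv s' w F x = hv s' w F 0 := fun x =>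
      hv_congr s' w F x 0 (fun g hg => by rw [p4] at hg; simp at hg)
    set Φ : (ℕ × ℕ) × ℕ → (∀ f : Fin 3, ZMod (pr f ^ cnt f (se s))) × ℕ := fun z =>
      (fun f => if f = G then Lg (pr f) (cnt f (se s)) z.2 +
        ((hv s w f (fun _ => z.1.1) + hv s' w f (fun _ => z.1.2) : ℕ) : ZMod (pr f ^ cnt f (se s)))
        else if f = F then Lg (pr f) (cnt f (se s)) z.1.1 + Lg (pr f) (cnt f (se s)) z.1.2 +
          ((hv s w f 0 + hv s' w f 0 : ℕ) : ZMod (pr f ^ cnt f (se s)))
        else ((n : ℕ) : ZMod (pr f ^ cnt f (se s))), z.2) with hΦ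
    set ψ : (Fin 3 → ℕ) × (Fin 3 → ℕ) → (ℕ × ℕ) × ℕ := fun q => ((q.1 F, q.2 F), rr s' q) with hψ
    have hsub : T.image (th s s' w) ⊆ (T.image ψ).image Φ := by
      intro y hy
      rw [Finset.mem_image] at hy
      obtain ⟨q, hq, rfl⟩ := hy
      obtain ⟨h1, h2, h3⟩ := hT q hq
      rw [Finset.mem_image]
      refine ⟨ψ q, Finset.mem_image_of_mem _ hq, ?_⟩
      rw [hΦ, hψ]
      unfold th
      simp only [Prod.mk.injEq, and_true]
      funext f
      by_cases hf : f = G
      · rw [if_pos hf, if_pos (by rw [hf])]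
        subst hf
        rw [hvG q.1, hvG' q.2]
      · rw [if_neg hf, if_neg hf]
        by_cases hfF : f = F
        · rw [if_pos hfF]
          subst hfF
          rw [cs_cast s s' w q f _ le_rfl (by rw [e3, e4]) (XX_mem h1 f).2.1 (XX_mem h2 f).2.1,
            hvF q.1, hvF' q.2]
        · rw [if_neg hfF]
          have h5 := cast_of_mod _ _ _ h3 f
          rw [← p5 f hf hfF] at h5
          exact h5.symm
    have hψ1 : (T.image ψ).card ≤ (pr G - 1) * (T.image (fun q => (q.1 F, q.2 F))).card := by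
      refine Finset.card_le_mul_card_image_of_maps_to (f := fun z : (ℕ × ℕ) × ℕ => z.1) ?_ _ ?_
      · intro z hz
        rw [Finset.mem_image] at hz ⊢
        obtain ⟨q, hq, rfl⟩ := hz
        exact ⟨q, hq, rfl⟩
      · intro u _
        refine le_trans ?_ (rr_card s s' w n (hv s w G (fun _ => u.1) + hv s' w G (fun _ => u.2))
          hle (T.filter (fun q => (q.1 F, q.2 F) = u)) ?_)
        · refine Finset.card_le_card_of_injOn (fun z => z.2) ?_ ?_
          · intro z hz
            simp only [Finset.coe_filter, Finset.mem_image, Set.mem_ofPred_eq] at hz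
            obtain ⟨⟨q, hq, rfl⟩, hz2⟩ := hz
            rw [Finset.mem_coe, Finset.mem_image]
            exact ⟨q, Finset.mem_filter.mpr ⟨hq, hz2⟩, rfl⟩
          · intro z hz z' hz' h
            simp only [Finset.coe_filter, Set.mem_ofPred_eq] at hz hz'
            exact Prod.ext (hz.2.trans hz'.2.symm) h
        · intro q hq
          rw [Finset.mem_filter] at hq
          obtain ⟨hq, hqu⟩ := hq
          obtain ⟨h1, h2, h3⟩ := hT q hq
          refine ⟨h1, h2, h3, ?_⟩
          rw [← hG, hvG q.1, hvG' q.2, ← hqu]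
    have hψ2 : (T.image (fun q => (q.1 F, q.2 F))).card ≤ 2 * (pr F - 1) := by
      have hst : cnt F (sl s) = cnt F (sl s') := by
        rw [e1, e2]
        apply cnt_static F _ _ (tau_strictMono.monotone (Nat.le_succ c))
        intro t ht1 ht2
        rw [own_between c t ht1 ht2, ← e2, ← hG]
        exact fun h => hF h.symm
      refine card_pairs_static (pr_prime F) (pr_ne_two F) (cnt F (sl s'))
        ((n : ZMod (pr F ^ cnt F (sl s'))) -
          ((hv s w F 0 + hv s' w F 0 : ℕ) : ZMod (pr F ^ cnt F (sl s')))) _ ?_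
      intro z hz
      rw [Finset.mem_image] at hz
      obtain ⟨q, hq, rfl⟩ := hz
      obtain ⟨h1, h2, h3⟩ := hT q hq
      obtain ⟨a1, a2, a3⟩ := XX_mem h1 F
      obtain ⟨b1, b2, b3⟩ := XX_mem h2 F
      refine ⟨a1, b1, a2, b2, by rw [← hst]; exact a3, b3, ?_⟩
      have h5 := cast_of_mod _ _ _ h3 F
      rw [cs_cast s s' w q F _ (cnt_mono F hle) (cnt_mono F hle') a2 b2, hvF q.1, hvF' q.2] at h5
      rw [← h5]
      ring
    refine le_trans (Finset.card_le_card hsub) (le_trans Finset.card_image_le (le_trans hψ1 ?_))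
    have g1 := hpr G
    have g2 := hpr F
    calc (pr G - 1) * (T.image (fun q => (q.1 F, q.2 F))).card
        ≤ 1000037 * (2 * 1000037) := Nat.mul_le_mul (by omega) (le_trans hψ2 (by omega))
      _ = 2 * 1000037 * 1000037 := by ring

end Pool.Agent.Helper72.T4
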