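import Pool.Agent.Helper1.ET4.NearOneF
import Pool.Agent.Helper72.T4.NearTheta

/-!
# T4' (MP_12a1af), block N: assembly
-/

namespace Pool.Agent.Helper72.T4

open Finset Pool.Agent.Helper5.ET Pool.Agent.Helper27.T4

theorem le_of_not_bad (C Y : ℝ) (hY : 0 ≤ Y) (C1 X : ℕ)
    (h : ∀ R : ℕ, (∀ a : ℕ, (a : ℝ) ≤ max C 0 * Y → a ≤ R) → X ≤ C1 * R) :
    (X : ℝ) ≤ (C1 * max C 0) * Y := by
  have h0 : 0 ≤ max C 0 * Y := mul_nonneg (le_max_right _ _) hY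
  have h1 := h ⌊max C 0 * Y⌋₊ (fun a ha => Nat.le_floor ha)
  have h2 : ((⌊max C 0 * Y⌋₊ : ℕ) : ℝ) ≤ max C 0 * Y := Nat.floor_le h0
  have h3 : (X : ℝ) ≤ C1 * (⌊max C 0 * Y⌋₊ : ℕ) := by exact_mod_cast h1
  nlinarith [mul_le_mul_of_nonneg_left h2 (Nat.cast_nonneg (α := ℝ) C1)]

/-- the two numbers which are counted in a step -/
theorem near_of (C2 : ℝ) (c2 C3 c3 : ℕ)
    (hVV2 : ∀ c ≥ c2, ∀ s s' : ℕ, s = 2 * c + 2 → s' = 2 * c + 1 →
    ∀ K : Finset Key, keysOf s ⊆ K → keysOf s' ⊆ K →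
      PrLe K (fun w => ∃ α E κ n1 : ℕ, E.Coprime (pr (own (sl s'))) ∧ κ ≤ 1 ∧
        C2 * ((sg s : ℝ) / Real.log (sg s)) <
        ((((range (pr (own (sl s')) ^ ((cnt (own (sl s')) (sl s) - cnt (own (sl s')) (sl s')) / 2))) ×ˢ
          ((VV s w) ×ˢ (VV s' w))).filter (fun t => (α + E * t.1) % (Nj (se s) / Nj (sl s')) +
            κ * (Nj (se s) / Nj (sl s')) + Nj (sl s) / Nj (sl s') * t.2.1 + t.2.2 = n1)).card : ℝ))
        (Real.exp (-(Real.sqrt (sl s)))))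
    (hD1 : ∀ (s s' : ℕ) (_h : sl s = sl s') (w : Key → ℕ) (R : ℕ)
    (_hR : ∀ M : ℕ, (((VV s w) ×ˢ (VV s' w)).filter (fun q => q.1 + q.2 = M)).card ≤ R) (n : ℕ),
    Rp s s' w n ≤ (∏ f, 2 * (pr f - 1)) * R)
    (hD2 : ∀ c ≥ c3, ∀ s s' : ℕ, s = 2 * c + 2 → s' = 2 * c + 1 →
    ∀ (w : Key → ℕ) (R : ℕ)
    (_hR : ∀ α E κ n1 : ℕ, E.Coprime (pr (own (sl s'))) → κ ≤ 1 →
      (((range (pr (own (sl s')) ^ ((cnt (own (sl s')) (sl s) - cnt (own (sl s')) (sl s')) / 2))) ×ˢ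
          ((VV s w) ×ˢ (VV s' w))).filter (fun t => (α + E * t.1) % (Nj (se s) / Nj (sl s')) +
            κ * (Nj (se s) / Nj (sl s')) + Nj (sl s) / Nj (sl s') * t.2.1 + t.2.2 = n1)).card ≤ R)
    (n : ℕ), Rp s s' w n ≤ C3 * R) :
    ∃ (C : ℝ) (s0 : ℕ), ∀ s ≥ s0, ∀ s', (s' = s ∨ s' + 1 = s) →
    ∀ K : Finset Key, keysOf s ⊆ K → keysOf s' ⊆ K →
      PrLe K (fun w => ∃ n, C * ((sg s : ℝ) / Real.log (sg s)) < Rp s s' w n)
        (Real.exp (-(Real.sqrt (sl s)))) := by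
  set C4 : ℕ := ∏ f, 2 * (pr f - 1) with hC4
  refine ⟨(C4 : ℝ) * max 770 0 + (C3 : ℝ) * max C2 0, 2 * (c2 + c3) + 2, ?_⟩
  intro s hs s' hs' K hK hK'
  have hY : 0 ≤ (sg s : ℝ) / Real.log (sg s) := by
    refine div_nonneg (Nat.cast_nonneg _) (Real.log_nonneg ?_)
    have h := sg_ge s
    exact_mod_cast (le_trans (by norm_num) h : 1 ≤ sg s)
  have hA : 0 ≤ (C4 : ℝ) * max 770 0 * ((sg s : ℝ) / Real.log (sg s)) := by positivity
  have hB : 0 ≤ (C3 : ℝ) * max C2 0 * ((sg s : ℝ) / Real.log (sg s)) :=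
    mul_nonneg (mul_nonneg (Nat.cast_nonneg _) (le_max_right _ _)) hY
  -- the same l
  have key1 : s' ≤ s → sl s = sl s' → PrLe K (fun w => ∃ n, ((C4 : ℝ) * max 770 0 + (C3 : ℝ) * max C2 0) *
      ((sg s : ℝ) / Real.log (sg s)) < Rp s s' w n) (Real.exp (-(Real.sqrt (sl s)))) := by
    intro h1 h2
    refine Pool.Agent.Helper1.ET4.prLe_mono (Pool.Agent.Helper1.ET4.near_VV_one s s' h1 K hK hK') ?_ ?_
    · rintro w ⟨n, hn⟩
      by_contra hcon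
      push Not at hcon
      have h3 := le_of_not_bad 770 _ hY C4 (Rp s s' w n) (fun R hR => by
        refine hD1 s s' h2 w R (fun M => hR _ ?_) n
        refine le_trans (hcon M) ?_
        exact mul_le_mul_of_nonneg_right (le_max_left _ _) hY)
      linarith
    · have := Real.exp_pos (-(Real.sqrt (sl s)))
      linarith
  rcases hs' with rfl | hs'
  · exact key1 le_rfl rfl
  · rcases Nat.even_or_odd' s with ⟨d, hd | hd⟩
    · -- s = 2 d, s' = 2 d - 1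
      obtain ⟨c, rfl⟩ : ∃ c, d = c + 1 := ⟨d - 1, by omega⟩
      have e1 : s = 2 * c + 2 := by omega
      have e2 : s' = 2 * c + 1 := by omega
      refine Pool.Agent.Helper1.ET4.prLe_mono (hVV2 c (by omega) s s' e1 e2 K hK hK') ?_ le_rfl
      rintro w ⟨n, hn⟩
      by_contra hcon
      push Not at hcon
      have h3 := le_of_not_bad C2 _ hY C3 (Rp s s' w n) (fun R hR => by
        refine hD2 c (by omega) s s' e1 e2 w R (fun α E κ n1 h5 h6 => hR _ ?_) n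
        refine le_trans (hcon α E κ n1 h5 h6) ?_
        exact mul_le_mul_of_nonneg_right (le_max_left _ _) hY)
      linarith
    · refine key1 (by omega) ?_
      have : s' = 2 * d := by omega
      rw [hd, this, sl_odd, sl_even]

end Pool.Agent.Helper72.T4
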