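import Pool.Agent.Helper27.T4.Sch
import Pool.Agent.Helper3.T4.Decode

/-!
# T4' (MP_12a1af), block N: decoding facts
-/

namespace Pool.Agent.Helper72.T4

open Finset Pool.Agent.Helper5.ET Pool.Agent.Helper27.T4

theorem cnt_mono (f : Fin 3) {y z : ℕ} (h : y ≤ z) : cnt f y ≤ cnt f z := by
  unfold cnt
  exact Finset.card_le_card (Finset.filter_subset_filter _ (Finset.range_subset_range.mpr h))

theorem av_mono {y z : ℕ} (h : y ≤ z) : av y ≤ av z := fun f => cnt_mono f h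

theorem Nj_pos (j : ℕ) : 0 < Nj j := NN_pos pr_prime _

theorem Nj_dvd {y z : ℕ} (h : y ≤ z) : Nj y ∣ Nj z := NN_dvd pr (av_mono h)

/-- the code of `x` modulo `p_f^m` -/
theorem code_cast (s : ℕ) (w : Key → ℕ) (x : Fin 3 → ℕ) (f : Fin 3) (m : ℕ)
    (hm : m ≤ cnt f (se s)) (hx : (x f).Coprime (pr f)) :
    ((code s w x : ℕ) : ZMod (pr f ^ m)) =
      Lg (pr f) m (x f) + ((hv s w f x : ℕ) : ZMod (pr f ^ m)) := by
  have hm' : m ≤ av (se s) f := hm
  have h1 := cv_cast_comp pr_prime pr_inj (av (se s)) (cmp s w x) f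
  have h2 := congrArg (ZMod.castHom (pow_dvd_pow (pr f) hm') (ZMod (pr f ^ m))) h1
  rw [map_natCast] at h2
  rw [code, h2, Pool.Agent.Helper5.ET.cmp, map_add, map_natCast]
  congr 1
  exact Lg_red (pr_prime f) (pr_ne_two f) _ _ (x f) hx hm'

end Pool.Agent.Helper72.T4
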